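import Mathlib
import Pool.Agent.Helper14_Gem.Core

/-!
# The (gem, `P₂ + P₃`)-free graphs are not well-quasi-ordered by induced subgraphs

We give an infinite antichain, for the induced subgraph relation, of finite graphs that are
gem-free and `(P₂ + P₃)`-free.

The `M`-th graph has vertices `b_i, c_i, a_i` for `0 ≤ i < M`, together with a false twin of `b_0`
and a false twin of `a_{M-1}`. The `b`'s are independent, the `a`'s are independent and the `c`'s
form a clique; `b_i ~ c_j` iff `i < j`; `c_i ~ a_j` iff `i < j`; `b_i ~ a_j` iff `i ≤ j + 1`.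
-/

set_option autoImplicit false
set_option linter.unusedSimpArgs false

namespace Pool.Agent.Results.MP_7588da_co.InfiniteAntichain

open Pool.Agent.Helper14_Gem
open Pool.Agent.Helper14_Gem.T
open SimpleGraph

/-- The gem: the complement of `P₁ + P₄`. -/
def gem : SimpleGraph (Fin 1 ⊕ Fin 4) := (pathGraph 1 ⊕g pathGraph 4)ᶜ

/-- The graph `P₂ + P₃`. -/
def p2p3 : SimpleGraph (Fin 2 ⊕ Fin 3) := pathGraph 2 ⊕g pathGraph 3

/-- `G` is `H`-free: `H` is not isomorphic to an induced subgraph of `G`. -/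
def IsFree {V W : Type} (H : SimpleGraph W) (G : SimpleGraph V) : Prop := IsEmpty (H ↪g G)

/-- The vertices: `(kind, index)`, and two additional vertices. -/
abbrev Vert (M : ℕ) : Type := (T × Fin M) ⊕ Bool

/-- The position of a vertex. -/
def pos (M : ℕ) : Vert M → T × ℤ
  | Sum.inl (t, i) => (t, (i : ℤ))
  | Sum.inr false => (b, 0)
  | Sum.inr true => (a, (M : ℤ) - 1)

/-- The graphs of the antichain. -/
def Gr (M : ℕ) : SimpleGraph (Vert M) where
  Adj v w := A (pos M v) (pos M w)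
  symm := ⟨fun _ _ h => A_symm h⟩
  loopless := ⟨fun v h => A_irrefl _ h⟩

lemma gr_adj {M : ℕ} {v w : Vert M} : (Gr M).Adj v w ↔ A (pos M v) (pos M w) := Iff.rfl

lemma pos_range {M : ℕ} (hM : 1 ≤ M) (v : Vert M) :
    0 ≤ (pos M v).2 ∧ (pos M v).2 ≤ (M : ℤ) - 1 := by
  rcases v with ⟨t, i⟩ | _ | _
  · have := i.2
    simp only [pos]
    omega
  · simp only [pos]
    omega
  · simp only [pos]
    omega

lemma pos_inj {M : ℕ} {v w : Vert M} (hvw : v ≠ w) (h : pos M v = pos M w) :
    pos M v = (b, 0) ∨ pos M v = (a, (M : ℤ) - 1) := by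
  rcases v with ⟨t, i⟩ | _ | _ <;> rcases w with ⟨t', i'⟩ | _ | _ <;> simp only [pos] at h ⊢
  · rw [Prod.mk.injEq] at h
    obtain ⟨rfl, h2⟩ := h
    have : i = i' := Fin.ext (by exact_mod_cast h2)
    subst this
    exact absurd rfl hvw
  · exact Or.inl h
  · exact Or.inr h
  · exact Or.inl trivial
  · exact Or.inl trivial
  · exact Or.inl trivial
  · exact Or.inr trivial
  · exact Or.inr trivial
  · exact Or.inr trivial

lemma gem_free (M : ℕ) : IsFree gem (Gr M) := by
  refine ⟨fun φ => ?_⟩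
  have key : ∀ x y, A (pos M (φ x)) (pos M (φ y)) ↔ gem.Adj x y := fun x y => φ.map_adj_iff
  refine no_gem (pos M (φ (Sum.inl 0))) (pos M (φ (Sum.inr 2))) (pos M (φ (Sum.inr 0)))
    (pos M (φ (Sum.inr 3))) (pos M (φ (Sum.inr 1))) ?_ ?_ ?_ ?_ ?_ ?_ ?_ ?_ ?_ ?_ <;>
  rw [key] <;> simp [gem, pathGraph_adj]

lemma p2p3_free {M : ℕ} (hM : 1 ≤ M) : IsFree p2p3 (Gr M) := by
  refine ⟨fun φ => ?_⟩
  have key : ∀ x y, A (pos M (φ x)) (pos M (φ y)) ↔ p2p3.Adj x y := fun x y => φ.map_adj_iff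
  have hr : ∀ x, 0 ≤ (pos M (φ x)).2 ∧ (pos M (φ x)).2 ≤ (M : ℤ) - 1 := fun x => pos_range hM _
  refine no_p2p3 ((M : ℤ) - 1) (pos M (φ (Sum.inl 0))) (pos M (φ (Sum.inl 1)))
    (pos M (φ (Sum.inr 0))) (pos M (φ (Sum.inr 1))) (pos M (φ (Sum.inr 2)))
    (hr _) (hr _) (hr _) (hr _) (hr _) ?_ ?_ ?_ ?_ ?_ ?_ ?_ ?_ ?_ ?_ ?_
  · rw [key]; simp [p2p3, pathGraph_adj]
  · rw [key]; simp [p2p3, pathGraph_adj]
  · rw [key]; simp [p2p3, pathGraph_adj]
  · rw [key]; simp [p2p3, pathGraph_adj]
  · rw [key]; simp [p2p3, pathGraph_adj]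
  · rw [key]; simp [p2p3, pathGraph_adj]
  · rw [key]; simp [p2p3, pathGraph_adj]
  · rw [key]; simp [p2p3, pathGraph_adj]
  · rw [key]; simp [p2p3, pathGraph_adj]
  · rw [key]; simp [p2p3, pathGraph_adj]
  · by_cases h : pos M (φ (Sum.inr 0)) = pos M (φ (Sum.inr 2))
    · exact Or.inr (pos_inj (fun he => by
        have := φ.injective he
        simp at this) h)
    · exact Or.inl h

/-- Reflection of positions. -/
def refl (M : ℤ) : T × ℤ → T × ℤ
  | (b, i) => (a, M - 1 - i)
  | (c, i) => (c, M - 1 - i)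
  | (a, i) => (b, M - 1 - i)

lemma A_refl (M : ℤ) : ∀ x y : T × ℤ, A (refl M x) (refl M y) ↔ A x y := by
  rintro ⟨_ | _ | _, i⟩ ⟨_ | _ | _, j⟩ <;> simp only [A, refl] <;> omega

lemma refl_ends (M : ℤ) {x : T × ℤ} (h : x = (b, 0) ∨ x = (a, M - 1)) :
    refl M x = (b, 0) ∨ refl M x = (a, M - 1) := by
  rcases h with rfl | rfl
  · right; simp [refl]
  · left; simp [refl]

lemma refl_inj (M : ℤ) : ∀ {x y : T × ℤ}, refl M x = refl M y → x = y := by
  rintro ⟨_ | _ | _, i⟩ ⟨_ | _ | _, j⟩ h <;> simp only [refl, Prod.mk.injEq] at h ⊢ <;>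
  simp_all

/-- Distinct members of the family are incomparable. -/
lemma no_embedding {N M : ℕ} (hN : 9 ≤ N) (hNM : N ≠ M) : IsEmpty (Gr N ↪g Gr M) := by
  classical
  refine ⟨fun φ => hNM ?_⟩
  have key : ∀ x y, A (pos M (φ x)) (pos M (φ y)) ↔ A (pos N x) (pos N y) :=
    fun x y => φ.map_adj_iff
  -- the images of the positions
  let lift : T × ℤ → Vert N := fun x =>
    if h : 0 ≤ x.2 ∧ x.2 < N then Sum.inl (x.1, ⟨x.2.toNat, by omega⟩) else Sum.inr false
  have hlift : ∀ x : T × ℤ, 0 ≤ x.2 → x.2 < N → pos N (lift x) = x := by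
    intro x h0 h1
    simp only [lift]
    rw [dif_pos ⟨h0, h1⟩]
    simp only [pos]
    exact Prod.ext rfl (Int.toNat_of_nonneg h0)
  let F : T × ℤ → T × ℤ := fun x => pos M (φ (lift x))
  let L : T × ℤ := pos M (φ (Sum.inr false))
  let R : T × ℤ := pos M (φ (Sum.inr true))
  have hF : Emb (N : ℤ) F := by
    intro x y h0 h1 h2 h3
    have := key (lift x) (lift y)
    rw [hlift x h0 h1, hlift y h2 h3] at this
    exact this
  have hL : Rel (N : ℤ) F L (b, 0) := by
    intro y h2 h3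
    have := key (Sum.inr false) (lift y)
    rw [hlift y h2 h3] at this
    exact this
  have hR : Rel (N : ℤ) F R (a, (N : ℤ) - 1) := by
    intro y h2 h3
    have := key (Sum.inr true) (lift y)
    rw [hlift y h2 h3] at this
    exact this
  have hne1 : (Sum.inr false : Vert N) ≠ lift (b, 0) := by
    simp only [lift]
    rw [dif_pos ⟨le_refl _, by omega⟩]
    simp
  have hne2 : (Sum.inr true : Vert N) ≠ lift (a, (N : ℤ) - 1) := by
    simp only [lift]
    rw [dif_pos ⟨by omega, by omega⟩]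
    simp
  have hL' : L = F (b, 0) → L = (b, 0) ∨ L = (a, (M : ℤ) - 1) := fun h =>
    pos_inj (fun he => hne1 (φ.injective he)) h
  have hR' : R = F (a, (N : ℤ) - 1) → R = (b, 0) ∨ R = (a, (M : ℤ) - 1) := fun h =>
    pos_inj (fun he => hne2 (φ.injective he)) h
  have hN' : (9 : ℤ) ≤ N := by exact_mod_cast hN
  have hk := hF.b_kind hN' (i := 3) (by omega) (by omega)
  have hcases : (F (b, 3)).1 = b ∨ (F (b, 3)).1 = a := by
    revert hk
    generalize (F (b, 3)).1 = t
    cases t
    · intro _; exact Or.inl rfl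
    · intro h; exact absurd rfl h
    · intro _; exact Or.inr rfl
  rcases hcases with h3 | h3
  · have := core (M := (M : ℤ)) hF hN' h3 hL hR hL' hR'
    exact_mod_cast this
  · -- compose with the reflection
    have hF2 : Emb (N : ℤ) (fun x => refl M (F x)) := by
      intro x y h0 h1 h2 h3
      rw [A_refl]
      exact hF x y h0 h1 h2 h3
    have hL2 : Rel (N : ℤ) (fun x => refl M (F x)) (refl M L) (b, 0) := by
      intro y h2 h3
      rw [A_refl]
      exact hL y h2 h3
    have hR2 : Rel (N : ℤ) (fun x => refl M (F x)) (refl M R) (a, (N : ℤ) - 1) := by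
      intro y h2 h3
      rw [A_refl]
      exact hR y h2 h3
    have h3' : (refl M (F (b, 3))).1 = b := by
      revert h3
      generalize F (b, 3) = x
      obtain ⟨t, i⟩ := x
      rintro rfl
      rfl
    have := core (M := (M : ℤ)) hF2 hN' h3' hL2 hR2
      (fun h => refl_ends _ (hL' (refl_inj _ h))) (fun h => refl_ends _ (hR' (refl_inj _ h)))
    exact_mod_cast this

/-- **Main result.** There is an infinite sequence of finite graphs, all of them gem-free and
`(P₂ + P₃)`-free, no one of which is isomorphic to an induced subgraph of another one. -/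
theorem result : ∃ (V : ℕ → Type) (G : ∀ k, SimpleGraph (V k)),
    (∀ k, Finite (V k)) ∧ (∀ k, IsFree gem (G k) ∧ IsFree p2p3 (G k)) ∧
      ∀ k l, k ≠ l → IsEmpty (G k ↪g G l) := by
  have hT : Finite T := by
    apply Finite.of_surjective (fun i : Fin 3 => if i = 0 then b else if i = 1 then c else a)
    rintro (_ | _ | _)
    · exact ⟨0, rfl⟩
    · exact ⟨1, rfl⟩
    · exact ⟨2, rfl⟩
  refine ⟨fun k => Vert (k + 9), fun k => Gr (k + 9), fun k => inferInstance,
    fun k => ⟨gem_free _, p2p3_free (by omega)⟩, fun k l hkl => no_embedding (by omega) (by omega)⟩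

end Pool.Agent.Results.MP_7588da_co.InfiniteAntichain
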